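import Pool.Agent.H.MP_03bc95_nt.TN

open Finset

namespace Pool.Agent.H.MP_03bc95_nt

/-- The interval `K + {1, ..., N}`, `K` a residue. -/
noncomputable def Shf (p N : ℕ) (K : ZMod p) : Finset (ZMod p) := by
  classical
  exact (Icc 1 N).image fun i : ℕ => K + (i : ZMod p)

private theorem Av_inj {p : ℕ} {N : ℕ} (hlt : N < p) {K : ZMod p} {i j : ℕ} (hi : i ≤ N)
    (hj : j ≤ N) (h : K + (i : ZMod p) = K + (j : ZMod p)) : i = j :=
  Nat.ModEq.eq_of_lt_of_lt ((ZMod.natCast_eq_natCast_iff _ _ _).1 (add_left_cancel h))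
    (lt_of_le_of_lt hi hlt) (lt_of_le_of_lt hj hlt)

private theorem Av_x {p : ℕ} [Fact p.Prime] {N : ℕ} (hlt : N < p) {B C : Finset (ZMod p)}
    (hB : (0 : ZMod p) ∉ B) (hC : (0 : ZMod p) ∉ C) {K : ZMod p} {x x' : ℕ} {b c b' c' : ZMod p}
    (hx : x ∈ Icc 1 N) (hx' : x' ∈ Icc 1 N) (hb' : b' ∈ B) (hc' : c' ∈ C)
    (he : (K + (x : ZMod p)) * b * c = (K + (x' : ZMod p)) * b' * c') (h : b * c = b' * c') :
    x = x' := by
  have h1 : b' ≠ 0 := fun h => hB (h ▸ hb')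
  have h2 : c' ≠ 0 := fun h => hC (h ▸ hc')
  refine Av_inj hlt (Finset.mem_Icc.1 hx).2 (Finset.mem_Icc.1 hx').2 (K := K) ?_
  refine mul_right_cancel₀ (mul_ne_zero h1 h2) ?_
  linear_combination he - (K + (x : ZMod p)) * h

/-- If `0 ∉ K + {1, ..., N}` then `N < p` and the interval has `N` elements. PROOF. If `p ≤ N` then
`i = p - K.val` (in `[1, p]`) gives `K + i = 0`. Injectivity: `i, j ∈ [1, N]`, `K + i = K + j`,
`N < p` (`ZMod.natCast_eq_natCast_iff`, `Nat.ModEq.eq_of_lt_of_lt`). -/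
theorem shf_card {p : ℕ} [Fact p.Prime] {N : ℕ} {K : ZMod p} (h0 : (0 : ZMod p) ∉ Shf p N K) :
    N < p ∧ (Shf p N K).card = N := by
  have hp := (Fact.out : p.Prime)
  have hlt : N < p := by
    by_contra hcon
    have hcon' : p ≤ N := not_lt.1 hcon
    apply h0
    unfold Shf
    refine Finset.mem_image.2 ⟨p - K.val, ?_, ?_⟩
    · have h1 := ZMod.val_lt K
      rw [Finset.mem_Icc]
      omega
    · have h1 : K.val ≤ p := (ZMod.val_lt K).le
      have h2 : ((p - K.val : ℕ) : ZMod p) = (p : ZMod p) - (K.val : ZMod p) := Nat.cast_sub h1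
      rw [h2, ZMod.natCast_self, ZMod.natCast_zmod_val]
      ring
  refine ⟨hlt, ?_⟩
  unfold Shf
  rw [Finset.card_image_of_injOn, Nat.card_Icc, Nat.add_sub_cancel]
  intro i hi j hj h
  exact Av_inj hlt (Finset.mem_Icc.1 (Finset.mem_coe.1 hi)).2
    (Finset.mem_Icc.1 (Finset.mem_coe.1 hj)).2 h

/-- The average of `M6` over the positions `K ∈ G`. PROOF. `M6 (Shf p N K) B C` is at most the number
`R K` of `((x, b, c), (x', b', c'))`, `x, x' ∈ [1, N]`, `b, b' ∈ B`, `c, c' ∈ C`, with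
`(K + x) b c = (K + x') b' c'` (`Shf` is an image; or a bijection, by `shf_card`). Split by
`b c = b' c'`. (1) If `b c = b' c'` (not zero) then `K + x = K + x'`, so `x = x'`: at most
`N * M6 B C {1}` tuples for every `K` (the tuple is determined by `x` and `((b, c, 1), (b', c', 1))`).
(2) If `b c ≠ b' c'` then `K = (x' b' c' - x b c) / (b c - b' c')` is determined by the tuple: the sum
over `K ∈ G` is at most `(N * B.card * C.card) ^ 2`. -/
theorem sum_m6 {p : ℕ} [Fact p.Prime] (N : ℕ) (B C : Finset (ZMod p)) (hB : (0 : ZMod p) ∉ B)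
    (hC : (0 : ZMod p) ∉ C) (G : Finset (ZMod p)) (hG : ∀ K ∈ G, (0 : ZMod p) ∉ Shf p N K) :
    ∑ K ∈ G, M6 (Shf p N K) B C ≤ G.card * (N * M6 B C {1}) + (N * B.card * C.card) ^ 2 := by
  classical
  set T : Finset (ℕ × ZMod p × ZMod p) := Icc 1 N ×ˢ B ×ˢ C with hT
  have hTc : T.card = N * B.card * C.card := by
    rw [hT, Finset.card_product, Finset.card_product, Nat.card_Icc, Nat.add_sub_cancel, mul_assoc]
  have hmT : ∀ x b c, (x, b, c) ∈ T ↔ x ∈ Icc 1 N ∧ b ∈ B ∧ c ∈ C := by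
    intro x b c
    rw [hT, Finset.mem_product, Finset.mem_product]
  have h1 : ∀ K ∈ G, M6 (Shf p N K) B C ≤ N * M6 B C {1} +
      ((T ×ˢ T).filter fun z : (ℕ × ZMod p × ZMod p) × (ℕ × ZMod p × ZMod p) =>
        (K + (z.1.1 : ZMod p)) * z.1.2.1 * z.1.2.2 = (K + (z.2.1 : ZMod p)) * z.2.2.1 * z.2.2.2 ∧
          z.1.2.1 * z.1.2.2 ≠ z.2.2.1 * z.2.2.2).card := by
    intro K hK
    obtain ⟨hlt, -⟩ := shf_card (hG K hK)
    have h2 : M6 (Shf p N K) B C ≤
        ((T ×ˢ T).filter fun z : (ℕ × ZMod p × ZMod p) × (ℕ × ZMod p × ZMod p) =>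
          (K + (z.1.1 : ZMod p)) * z.1.2.1 * z.1.2.2 =
            (K + (z.2.1 : ZMod p)) * z.2.2.1 * z.2.2.2).card := by
      unfold M6
      refine le_trans (Finset.card_le_card (t := ((T ×ˢ T).filter fun z :
        (ℕ × ZMod p × ZMod p) × (ℕ × ZMod p × ZMod p) =>
          (K + (z.1.1 : ZMod p)) * z.1.2.1 * z.1.2.2 =
            (K + (z.2.1 : ZMod p)) * z.2.2.1 * z.2.2.2).image fun z =>
              ((K + (z.1.1 : ZMod p), z.1.2.1, z.1.2.2),
                (K + (z.2.1 : ZMod p), z.2.2.1, z.2.2.2))) ?_) Finset.card_image_le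
      rintro ⟨⟨a, b, c⟩, ⟨a', b', c'⟩⟩ hz
      rw [Finset.mem_filter, Finset.mem_product, Finset.mem_product, Finset.mem_product,
        Finset.mem_product, Finset.mem_product] at hz
      obtain ⟨⟨⟨ha, hb, hc⟩, ha', hb', hc'⟩, he⟩ := hz
      obtain ⟨x, hx, hxa⟩ := Finset.mem_image.1 ha
      obtain ⟨x', hx', hxa'⟩ := Finset.mem_image.1 ha'
      refine Finset.mem_image.2 ⟨((x, b, c), (x', b', c')), ?_, ?_⟩
      · rw [Finset.mem_filter, Finset.mem_product, hmT, hmT]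
        refine ⟨⟨⟨hx, hb, hc⟩, hx', hb', hc'⟩, ?_⟩
        dsimp only at hxa hxa' he ⊢
        rw [hxa, hxa']
        exact he
      · dsimp only at hxa hxa' ⊢
        rw [hxa, hxa']
    refine h2.trans ?_
    rw [← Finset.card_filter_add_card_filter_not (s := (T ×ˢ T).filter fun z :
        (ℕ × ZMod p × ZMod p) × (ℕ × ZMod p × ZMod p) =>
          (K + (z.1.1 : ZMod p)) * z.1.2.1 * z.1.2.2 =
            (K + (z.2.1 : ZMod p)) * z.2.2.1 * z.2.2.2)
      (fun z => z.1.2.1 * z.1.2.2 = z.2.2.1 * z.2.2.2)]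
    refine Nat.add_le_add ?_ ?_
    · have h3 : N * M6 B C {1} = (Icc 1 N ×ˢ (((B ×ˢ C ×ˢ ({1} : Finset (ZMod p))) ×ˢ
          (B ×ˢ C ×ˢ ({1} : Finset (ZMod p)))).filter fun z =>
          z.1.1 * z.1.2.1 * z.1.2.2 = z.2.1 * z.2.2.1 * z.2.2.2)).card := by
        rw [Finset.card_product, Nat.card_Icc, Nat.add_sub_cancel]
        rfl
      rw [h3]
      refine Finset.card_le_card_of_injOn
        (fun z => (z.1.1, ((z.1.2.1, z.1.2.2, 1), (z.2.2.1, z.2.2.2, 1)))) ?_ ?_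
      · rintro ⟨⟨x, b, c⟩, ⟨x', b', c'⟩⟩ hz
        rw [Finset.mem_coe, Finset.mem_filter, Finset.mem_filter, Finset.mem_product, hmT,
          hmT] at hz
        obtain ⟨⟨⟨⟨hx, hb, hc⟩, -, hb', hc'⟩, -⟩, he⟩ := hz
        dsimp only at he
        refine Finset.mem_coe.2 (Finset.mem_product.2 ⟨hx, Finset.mem_filter.2 ⟨?_, ?_⟩⟩)
        · exact Finset.mem_product.2 ⟨Finset.mem_product.2 ⟨hb, Finset.mem_product.2
            ⟨hc, Finset.mem_singleton_self 1⟩⟩, Finset.mem_product.2 ⟨hb', Finset.mem_product.2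
            ⟨hc', Finset.mem_singleton_self 1⟩⟩⟩
        · show b * c * 1 = b' * c' * 1
          rw [he]
      · rintro ⟨⟨x, b, c⟩, ⟨x', b', c'⟩⟩ hz ⟨⟨y, d, f⟩, ⟨y', d', f'⟩⟩ hw h
        rw [Finset.mem_coe, Finset.mem_filter, Finset.mem_filter, Finset.mem_product, hmT,
          hmT] at hz hw
        obtain ⟨⟨⟨⟨hx, hb, hc⟩, hx', hb', hc'⟩, he⟩, he2⟩ := hz
        obtain ⟨⟨⟨⟨hy, hd, hf⟩, hy', hd', hf'⟩, hg⟩, hg2⟩ := hw
        dsimp only at he he2 hg hg2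
        simp only [Prod.mk.injEq, and_true] at h
        obtain ⟨rfl, ⟨rfl, rfl⟩, rfl, rfl⟩ := h
        have e1 := Av_x hlt hB hC hx hx' hb' hc' he he2
        have e2 := Av_x hlt hB hC hy hy' hd' hf' hg hg2
        rw [← e1, ← e2]
    · rw [Finset.filter_filter]
  refine (Finset.sum_le_sum h1).trans ?_
  rw [Finset.sum_add_distrib, Finset.sum_const, smul_eq_mul]
  refine Nat.add_le_add_left ?_ _
  have h4 := Finset.sum_card_bipartiteAbove_eq_sum_card_bipartiteBelow (s := G) (t := T ×ˢ T)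
    (fun (K : ZMod p) (z : (ℕ × ZMod p × ZMod p) × (ℕ × ZMod p × ZMod p)) =>
      (K + (z.1.1 : ZMod p)) * z.1.2.1 * z.1.2.2 = (K + (z.2.1 : ZMod p)) * z.2.2.1 * z.2.2.2 ∧
          z.1.2.1 * z.1.2.2 ≠ z.2.2.1 * z.2.2.2)
  unfold Finset.bipartiteAbove Finset.bipartiteBelow at h4
  rw [h4]
  have h5 : (N * B.card * C.card) ^ 2 = ∑ _z ∈ T ×ˢ T, 1 := by
    rw [Finset.sum_const, smul_eq_mul, mul_one, Finset.card_product, hTc, sq]
  rw [h5]
  refine Finset.sum_le_sum fun z _ => ?_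
  rw [Finset.card_le_one]
  intro K hK K' hK'
  obtain ⟨-, h6, h7⟩ := Finset.mem_filter.1 hK
  obtain ⟨-, h8, -⟩ := Finset.mem_filter.1 hK'
  have h9 : (K - K') * (z.1.2.1 * z.1.2.2 - z.2.2.1 * z.2.2.2) = 0 := by
    linear_combination h6 - h8
  rcases mul_eq_zero.1 h9 with h10 | h10
  · exact sub_eq_zero.1 h10
  · exact absurd (sub_eq_zero.1 h10) h7

end Pool.Agent.H.MP_03bc95_nt
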