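import Pool.Agent.H.MP_03bc95_nt.Ma
import Pool.Agent.H.MP_03bc95_nt.Mb
import Pool.Agent.H.MP_03bc95_nt.Mc

open Finset

namespace Pool.Agent.H.MP_03bc95_nt

private theorem En_one (p : ℕ) : Itv p 0 1 = {1} := by
  ext a
  rw [Ma_mem, mem_singleton]
  constructor
  · rintro ⟨x, ⟨h1, h2⟩, rfl⟩
    have h3 : x = 1 := by omega
    rw [h3]
    norm_num
  · rintro rfl
    exact ⟨1, ⟨le_refl _, by norm_num⟩, by norm_num⟩

private theorem En_lt {p S h m} (H : Hyp p S h m) : h < p := by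
  have h1 := H.hh
  have h2 := H.hp
  have h3 : h ≤ h ^ 3 := Nat.le_self_pow (by norm_num) h
  omega

private theorem En_diag {p : ℕ} [Fact p.Prime] {S : ℤ} {h m : ℕ} (H : Hyp p S h m) :
    M6 (Itv p S h) (Itv p S h) {1} ≤ 2 * m * h ^ 2 := by
  have hp : 1 < p := (Fact.out : p.Prime).one_lt
  have h1 := m6_eq (S3 := 0) (Hn := 1) (En_lt H) hp H.hS (by
    intro x hx1 hx2
    have h3 : x = 1 := by omega
    rw [h3]
    simp)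
  rw [En_one] at h1
  rw [h1]
  simp only [Nat.cast_one, Icc_self, sum_singleton]
  have h4 : (((0 + 1 : ℤ) : ZMod p) * (((0 + 1 : ℤ) : ZMod p))⁻¹) = 1 := by
    simp
  rw [h4]
  exact e4_one H

/-- The multiplicative energy of two intervals. PROOF. `m6_sq_le B C {1}` (`0 ∉ {1}`):
`M6(B,C,{1})² ≤ M6(B,B,{1}) M6(C,C,{1})`. `{1} = Itv p 0 1` (one element `0 + 1`), so by `m6_eq`
(`S3 = 0`, `Hn = 1`, `1 < p`) `M6(I,I,{1}) = E4 p S h 1 ≤ 2 m h²` (`e4_one`, the argument is `1 · 1⁻¹`).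
So `M6(B,C,{1}) ≤ 2 √(m m') h h' ≤ (m + m') h h'` (`4 m m' ≤ (m + m')²`). -/
theorem en_itv {p : ℕ} [Fact p.Prime] {S S' : ℤ} {h h' m m' : ℕ} (H : Hyp p S h m)
    (H' : Hyp p S' h' m') :
    (M6 (Itv p S h) (Itv p S' h') {1} : ℝ) ≤ ((m : ℝ) + m') * (h * h') := by
  have h0 : (0 : ZMod p) ∉ ({1} : Finset (ZMod p)) := by
    rw [mem_singleton]
    exact zero_ne_one
  have h1 := m6_sq_le (Itv p S h) (Itv p S' h') {1} (zero_notMem_itv H.hS) (zero_notMem_itv H'.hS) h0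
  have h2 := h1.trans (Nat.mul_le_mul (En_diag H) (En_diag H'))
  have h3 : (M6 (Itv p S h) (Itv p S' h') {1} : ℝ) ^ 2 ≤
      (2 * m * (h : ℝ) ^ 2) * (2 * m' * (h' : ℝ) ^ 2) := by exact_mod_cast h2
  refine (pow_le_pow_iff_left₀ (by positivity) (by positivity) two_ne_zero).1 (h3.trans ?_)
  have h4 : 0 ≤ ((m : ℝ) - m') ^ 2 * ((h : ℝ) * h') ^ 2 := by positivity
  nlinarith [h4]

/-- `en_itv` with `exists_m` (Mb.lean: `m ≤ m³ (1 + log) ≤ C h^δ`, `2 ≤ m` by `two_le_of_hyp`;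
`h^δ + h'^δ ≤ 2 (h h')^δ`). -/
theorem en_clean (δ : ℝ) (hδ : 0 < δ) : ∃ C : ℝ, 1 ≤ C ∧ ∀ (p : ℕ) [Fact p.Prime]
    (S S' : ℤ) (h h' : ℕ), 1 ≤ h → 1 ≤ h' → 100000 * h ^ 3 ≤ p → 100000 * h' ^ 3 ≤ p →
    (∀ x : ℤ, 1 ≤ x → x ≤ h → ((S + x : ℤ) : ZMod p) ≠ 0) →
    (∀ x : ℤ, 1 ≤ x → x ≤ h' → ((S' + x : ℤ) : ZMod p) ≠ 0) →
    (M6 (Itv p S h) (Itv p S' h') {1} : ℝ) ≤ C * (((h : ℝ) * h') * ((h : ℝ) * h') ^ δ) := by
  obtain ⟨C, hC1, hC⟩ := exists_m δ hδ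
  have key : ∀ h : ℕ, 1 ≤ h → ∃ m : ℕ, DivB m h ∧ (m : ℝ) ≤ C * (h : ℝ) ^ δ := by
    intro h hh
    obtain ⟨m, hm, hmC⟩ := hC h hh
    refine ⟨m, hm, le_trans ?_ hmC⟩
    have h1 : (m : ℝ) ≤ (m : ℝ) ^ 3 := by
      have h2 : m ≤ m ^ 3 := Nat.le_self_pow (by norm_num) m
      exact_mod_cast h2
    have h3 : (0 : ℝ) ≤ Nat.log 2 h := Nat.cast_nonneg _
    have h4 : (0 : ℝ) ≤ (m : ℝ) ^ 3 := by positivity
    nlinarith
  refine ⟨2 * C, by linarith, ?_⟩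
  intro p _ S S' h h' hh hh' hp hp' hS hS'
  obtain ⟨m, hm, hmC⟩ := key h hh
  obtain ⟨m', hm', hmC'⟩ := key h' hh'
  have x1 : (1 : ℝ) ≤ h := by exact_mod_cast hh
  have x2 : (1 : ℝ) ≤ h' := by exact_mod_cast hh'
  have h1 := en_itv (⟨hh, hp, hS, hm⟩ : Hyp p S h m) (⟨hh', hp', hS', hm'⟩ : Hyp p S' h' m')
  have y1 : (1 : ℝ) ≤ (h : ℝ) ^ δ := Real.one_le_rpow x1 hδ.le
  have y2 : (1 : ℝ) ≤ (h' : ℝ) ^ δ := Real.one_le_rpow x2 hδ.le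
  have h2 : ((h : ℝ) * h') ^ δ = (h : ℝ) ^ δ * (h' : ℝ) ^ δ :=
    Real.mul_rpow (by linarith) (by linarith)
  have h3 : (h : ℝ) ^ δ ≤ ((h : ℝ) * h') ^ δ := by
    rw [h2]
    nlinarith
  have h4 : (h' : ℝ) ^ δ ≤ ((h : ℝ) * h') ^ δ := by
    rw [h2]
    nlinarith
  have hC0 : 0 < C := by linarith
  have h5 : (m : ℝ) + m' ≤ 2 * C * ((h : ℝ) * h') ^ δ := by
    have h6 := mul_le_mul_of_nonneg_left h3 hC0.le
    have h7 := mul_le_mul_of_nonneg_left h4 hC0.le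
    linarith
  refine h1.trans ?_
  have h8 : (0 : ℝ) ≤ (h : ℝ) * h' := by positivity
  calc ((m : ℝ) + m') * (h * h') ≤ 2 * C * ((h : ℝ) * h') ^ δ * (h * h') :=
        mul_le_mul_of_nonneg_right h5 h8
    _ = 2 * C * (((h : ℝ) * h') * ((h : ℝ) * h') ^ δ) := by ring

end Pool.Agent.H.MP_03bc95_nt
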