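import Pool.Agent.H.MP_03bc95_nt.V.Av
import Pool.Agent.H.MP_03bc95_nt.V.En

open Finset
open scoped Pointwise

namespace Pool.Agent.H.MP_03bc95_nt

/-- The exceptional positions. PROOF. `C` from `en_clean ε`, `c = 1 / (4 C)`. Let `T = N h2 h3 ≥ 1`,
`B = Itv p S2 h2`, `D = Itv p S3 h3` (cardinalities `h2`, `h3` by `itv_card`, `0 ∉` by
`zero_notMem_itv`), `M K = M6 (Shf p N K) B D`. For `K ∈ G`: `prod_card` and `shf_card`: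
`T² ≤ card · M K < c T^(1-ε) M K`, so `M K ≥ T^(1+ε) / c = 4 C T^(1+ε)`. `sum_m6` and `en_clean ε`:
`∑ M K ≤ #G · N · C (h2 h3)^(1+ε) + T² ≤ #G · C T^(1+ε) + T²` (`N ≤ N^(1+ε)`). So
`#G · 4 C T^(1+ε) ≤ #G · C T^(1+ε) + T²`, `#G · 3 C T^(1+ε) ≤ T²`, `#G ≤ T^(1-ε)` (`1 ≤ C`). -/
theorem metric (ε : ℝ) (hε : 0 < ε) : ∃ c : ℝ, 0 < c ∧ ∀ (p : ℕ) [Fact p.Prime]
    (S2 S3 : ℤ) (N h2 h3 : ℕ), 1 ≤ N → 1 ≤ h2 → 1 ≤ h3 →
    100000 * h2 ^ 3 ≤ p → 100000 * h3 ^ 3 ≤ p →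
    (∀ x : ℤ, 1 ≤ x → x ≤ h2 → ((S2 + x : ℤ) : ZMod p) ≠ 0) →
    (∀ x : ℤ, 1 ≤ x → x ≤ h3 → ((S3 + x : ℤ) : ZMod p) ≠ 0) →
    ∀ G : Finset (ZMod p), (∀ K ∈ G, (0 : ZMod p) ∉ Shf p N K) →
    (∀ K ∈ G, ((Shf p N K * Itv p S2 h2 * Itv p S3 h3).card : ℝ) <
      c * ((N : ℝ) * h2 * h3) ^ (1 - ε)) →
    (G.card : ℝ) ≤ ((N : ℝ) * h2 * h3) ^ (1 - ε) := by
  obtain ⟨C, hC1, hC⟩ := en_clean ε hε
  have hC0 : (0 : ℝ) < C := by linarith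
  refine ⟨1 / (4 * C), by positivity, ?_⟩
  intro p _ S2 S3 N h2 h3 hN hh2 hh3 hp2 hp3 hS2 hS3 G hG0 hG
  have hlt : ∀ h : ℕ, 1 ≤ h → 100000 * h ^ 3 ≤ p → h < p := by
    intro h hh hp
    have h3 : h ≤ h ^ 3 := Nat.le_self_pow (by norm_num) h
    omega
  have hlt2 := hlt h2 hh2 hp2
  have hlt3 := hlt h3 hh3 hp3
  have xN : (1 : ℝ) ≤ N := by exact_mod_cast hN
  have x2 : (1 : ℝ) ≤ h2 := by exact_mod_cast hh2
  have x3 : (1 : ℝ) ≤ h3 := by exact_mod_cast hh3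
  have a1 := hC p S2 S3 h2 h3 hh2 hh3 hp2 hp3 hS2 hS3
  have a2 := sum_m6 N (Itv p S2 h2) (Itv p S3 h3) (zero_notMem_itv hS2) (zero_notMem_itv hS3) G hG0
  rw [itv_card S2 hlt2, itv_card S3 hlt3] at a2
  have hT1 : (1 : ℝ) ≤ (N : ℝ) * h2 * h3 :=
    one_le_mul_of_one_le_of_one_le (one_le_mul_of_one_le_of_one_le xN x2) x3
  set T : ℝ := (N : ℝ) * h2 * h3 with hT
  have hT0 : 0 < T := by linarith
  have hE0 : 0 < T ^ ε := Real.rpow_pos_of_pos hT0 ε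
  have hTE : T ^ (1 - ε) = T / T ^ ε := by rw [Real.rpow_sub hT0, Real.rpow_one]
  have a3 : ∀ K ∈ G, 4 * C * T ^ ε * T ≤ (M6 (Shf p N K) (Itv p S2 h2) (Itv p S3 h3) : ℝ) := by
    intro K hK
    have b1 := prod_card (Shf p N K) (Itv p S2 h2) (Itv p S3 h3)
    rw [itv_card S2 hlt2, itv_card S3 hlt3, (shf_card (hG0 K hK)).2] at b1
    have b2 := hG K hK
    rw [hTE] at b2
    have b3 : T ^ 2 ≤ ((Shf p N K * Itv p S2 h2 * Itv p S3 h3).card : ℝ) *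
        (M6 (Shf p N K) (Itv p S2 h2) (Itv p S3 h3) : ℝ) := by
      rw [hT]
      exact_mod_cast b1
    have b4 : T ^ 2 ≤ 1 / (4 * C) * (T / T ^ ε) *
        (M6 (Shf p N K) (Itv p S2 h2) (Itv p S3 h3) : ℝ) :=
      b3.trans (mul_le_mul_of_nonneg_right b2.le (Nat.cast_nonneg _))
    have b5 : 1 / (4 * C) * (T / T ^ ε) * (M6 (Shf p N K) (Itv p S2 h2) (Itv p S3 h3) : ℝ) *
        (4 * C * T ^ ε) = T * (M6 (Shf p N K) (Itv p S2 h2) (Itv p S3 h3) : ℝ) := by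
      field_simp
    have b6 : T * (4 * C * T ^ ε * T) ≤ T * (M6 (Shf p N K) (Itv p S2 h2) (Itv p S3 h3) : ℝ) := by
      rw [← b5]
      have b7 := mul_le_mul_of_nonneg_right b4 (show 0 ≤ 4 * C * T ^ ε by positivity)
      refine le_trans (le_of_eq ?_) b7
      ring
    exact le_of_mul_le_mul_left b6 hT0
  have a4 : (G.card : ℝ) * (4 * C * T ^ ε * T) ≤
      ∑ K ∈ G, (M6 (Shf p N K) (Itv p S2 h2) (Itv p S3 h3) : ℝ) := by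
    have c1 := Finset.card_nsmul_le_sum G
      (fun K => (M6 (Shf p N K) (Itv p S2 h2) (Itv p S3 h3) : ℝ)) _ a3
    rwa [nsmul_eq_mul] at c1
  have a5 : ∑ K ∈ G, (M6 (Shf p N K) (Itv p S2 h2) (Itv p S3 h3) : ℝ) ≤
      G.card * (N * (M6 (Itv p S2 h2) (Itv p S3 h3) {1} : ℝ)) + T ^ 2 := by
    rw [hT]
    exact_mod_cast a2
  have a6 : (N : ℝ) * (M6 (Itv p S2 h2) (Itv p S3 h3) {1} : ℝ) ≤ C * T ^ ε * T := by
    have d1 : ((h2 : ℝ) * h3) ^ ε ≤ T ^ ε := by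
      refine Real.rpow_le_rpow (by positivity) ?_ hε.le
      rw [hT, mul_assoc]
      exact le_mul_of_one_le_left (by positivity) xN
    calc (N : ℝ) * (M6 (Itv p S2 h2) (Itv p S3 h3) {1} : ℝ) ≤
          N * (C * (((h2 : ℝ) * h3) * ((h2 : ℝ) * h3) ^ ε)) :=
          mul_le_mul_of_nonneg_left a1 (by positivity)
      _ ≤ N * (C * (((h2 : ℝ) * h3) * T ^ ε)) := by gcongr
      _ = C * T ^ ε * T := by
          rw [hT]
          ring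
  have a7 : (G.card : ℝ) * (4 * C * T ^ ε * T) ≤ G.card * (C * T ^ ε * T) + T ^ 2 := by
    refine a4.trans (a5.trans ?_)
    gcongr
  have a8 : (G.card : ℝ) * (3 * C * T ^ ε) * T ≤ T * T := by nlinarith
  have a9 : (G.card : ℝ) * (3 * C * T ^ ε) ≤ T := le_of_mul_le_mul_right a8 hT0
  rw [hTE, le_div_iff₀ hE0]
  have hg : (0 : ℝ) ≤ G.card * T ^ ε := by positivity
  have a10 : (G.card : ℝ) * (3 * C * T ^ ε) = 3 * C * (G.card * T ^ ε) := by ring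
  rw [a10] at a9
  refine le_trans ?_ a9
  exact le_mul_of_one_le_left hg (by linarith)

end Pool.Agent.H.MP_03bc95_nt
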